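import Pool.Agent.Q54.ZR.All

/-!
# MP_2da030_co: zero-sum Ramsey numbers over `ZMod 3`

For every finite simple graph `G` on `n` vertices whose number of edges is divisible by three,
the zero-sum Ramsey number `R(G, Z_3)` exists, is at most `n + 8`, and is equal to `n + 8` if and
only if `G` is isomorphic to `K_3`.

`R(G, Z_3)` is the least element of the set of all positive integers `R` such that for all
`N ≥ R` and every colouring `f` of the pairs of elements of `Fin N` with elements of `ZMod 3`
there is a copy of `G` (an injective map `φ` of the vertices) whose edges have total colour `0`.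
-/

set_option autoImplicit false

namespace Pool.Agent.Results.MP_2da030_co.UniversalBound

/-- The universal upper bound for zero-sum Ramsey numbers over `ZMod 3`, with the case of
equality. -/
theorem result : ∀ (n : ℕ) (G : SimpleGraph (Fin n)) [DecidableRel G.Adj],
    3 ∣ G.edgeFinset.card →
    ∃ R : ℕ, IsLeast {R : ℕ | 0 < R ∧ ∀ N : ℕ, R ≤ N → ∀ f : Sym2 (Fin N) → ZMod 3,
        ∃ φ : Fin n ↪ Fin N, ∑ e ∈ G.edgeFinset, f (e.map φ) = 0} R ∧
      R ≤ n + 8 ∧ (R = n + 8 ↔ Nonempty (G ≃g (⊤ : SimpleGraph (Fin 3)))) :=
  Pool.Agent.Q54.ZR.all_final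

end Pool.Agent.Results.MP_2da030_co.UniversalBound
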